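import Pool.Agent.Helper77.SD.St

/-! Project SD, module SH: the shift inequality in `H¹`. -/

set_option autoImplicit false

namespace Pool.Agent.Helper67.SD

open MeasureTheory Metric Set
open Pool.Agent.Helper77.SD
open scoped Gradient RealInnerProductSpace ENNReal

variable {d : ℕ}

private lemma l2_DD {g : E d → ℝ} (hg : L2 g) (l : E d) (t : ℝ) :
    L2 (fun x => g (x + t • l) - g (x - t • l)) := by
  have h : L2 (fun x => g (x + t • l) - g (x + -(t • l))) :=
    (l2_shift hg (t • l)).sub (l2_shift hg (-(t • l)))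
  simpa only [sub_eq_add_neg] using h

private lemma nrm_DD {g : E d → ℝ} (hg : L2 g) (l : E d) (t : ℝ) :
    nrm (fun x => g (x + t • l) - g (x - t • l)) ≤ 2 * nrm g := by
  have h := nrm_sub_le (l2_shift hg (t • l)) (l2_shift hg (-(t • l)))
  rw [nrm_shift, nrm_shift, ← two_mul] at h
  simpa only [sub_eq_add_neg] using h

private lemma l2_in {F : E d → E d} (hF : L2 F) (l : E d) : L2 (fun x => (⟪F x, l⟫ : ℝ)) := by
  refine l2_of_le (K := ‖l‖) hF (hF.1.inner aestronglyMeasurable_const) fun x => ?_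
  rw [mul_comm]
  exact norm_inner_le_norm _ _

private lemma nrm_in {F : E d → E d} (hF : L2 F) (l : E d) : nrm (fun x => (⟪F x, l⟫ : ℝ)) ≤ ‖l‖ * nrm F := by
  refine nrm_le_of_le (norm_nonneg l) hF fun x => ?_
  rw [mul_comm]
  exact norm_inner_le_norm _ _

theorem hSH (h : StSHC) : StSH := by
  intro d l S f F hf hS
  set Q := nrm (fun x => f (x + l) - f x) with hQ
  have hQ0 : 0 ≤ Q := nrm_nonneg _
  have hf0 : 0 ≤ nrm f := nrm_nonneg _
  have hF0 : 0 ≤ nrm F := nrm_nonneg _
  have hl0 : 0 ≤ ‖l‖ := norm_nonneg l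
  have key : ∀ ε : ℝ, 0 < ε → ε < 1 → Q ^ 2 ≤ S + (2 * ‖l‖ * (nrm f + 1 + nrm F) + 4 * Q) * ε := by
    intro ε hε hε1
    obtain ⟨w, hw, hwc, hw1, hw2⟩ := hf.app ε hε
    have hwL : L2 w := l2_of_compact hw.continuous hwc
    have hgL : L2 (∇ w) := l2_grad hw hwc
    have hwf : L2 (fun x => w x - f x) := hwL.sub hf.l2
    have hGF : L2 (fun x => ∇ w x - F x) := hgL.sub hf.l2G
    have hnw : nrm w ≤ nrm f + 1 := by
      have := nrm_le_add_sub hwL hf.l2
      linarith
    have hnw0 : 0 ≤ nrm w := nrm_nonneg _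
    have hSe : ∀ t ∈ Icc (0 : ℝ) 1, ∫ x, ⟪∇ w x, l⟫ * (w (x + t • l) - w (x - t • l)) ≤
        S + 2 * ‖l‖ * (nrm f + 1 + nrm F) * ε := by
      intro t ht
      have i1 : Integrable (fun x => ⟪F x, l⟫ * (f (x + t • l) - f (x - t • l))) :=
        integrable_mul (l2_in hf.l2G l) (l2_DD hf.l2 l t)
      have i2 : Integrable (fun x => ⟪∇ w x - F x, l⟫ * (w (x + t • l) - w (x - t • l))) :=
        integrable_mul (l2_in hGF l) (l2_DD hwL l t)
      have i3 : Integrable (fun x => ⟪F x, l⟫ *
          ((w (x + t • l) - f (x + t • l)) - (w (x - t • l) - f (x - t • l)))) :=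
        integrable_mul (l2_in hf.l2G l) (l2_DD hwf l t)
      have e1 : ∫ x, ⟪∇ w x, l⟫ * (w (x + t • l) - w (x - t • l)) =
          (∫ x, ⟪F x, l⟫ * (f (x + t • l) - f (x - t • l))) +
          (∫ x, ⟪∇ w x - F x, l⟫ * (w (x + t • l) - w (x - t • l))) +
          ∫ x, ⟪F x, l⟫ * ((w (x + t • l) - f (x + t • l)) - (w (x - t • l) - f (x - t • l))) := by
        have j1 : Integrable (fun x => ⟪F x, l⟫ * (f (x + t • l) - f (x - t • l)) +
            ⟪∇ w x - F x, l⟫ * (w (x + t • l) - w (x - t • l))) := i1.add i2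
        rw [← integral_add i1 i2, ← integral_add j1 i3]
        congr 1
        ext x
        simp only [inner_sub_left]
        ring
      have b2 := abs_integral_mul_le (l2_in hGF l) (l2_DD hwL l t)
      have b3 := abs_integral_mul_le (l2_in hf.l2G l) (l2_DD hwf l t)
      have c2 : nrm (fun x => (⟪∇ w x - F x, l⟫ : ℝ)) * nrm (fun x => w (x + t • l) - w (x - t • l)) ≤
          (‖l‖ * ε) * (2 * (nrm f + 1)) := by
        refine mul_le_mul ((nrm_in hGF l).trans (mul_le_mul_of_nonneg_left hw2.le hl0))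
          ((nrm_DD hwL l t).trans (by linarith)) (nrm_nonneg _) (by positivity)
      have c3 : nrm (fun x => (⟪F x, l⟫ : ℝ)) *
          nrm (fun x => (w (x + t • l) - f (x + t • l)) - (w (x - t • l) - f (x - t • l))) ≤
          (‖l‖ * nrm F) * (2 * ε) := by
        refine mul_le_mul (nrm_in hf.l2G l) ((nrm_DD hwf l t).trans (by linarith)) (nrm_nonneg _)
          (by positivity)
      have d1 := hS t ht
      have d2 := (le_abs_self _).trans (b2.trans c2)
      have d3 := (le_abs_self _).trans (b3.trans c3)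
      rw [e1]
      nlinarith [d1, d2, d3]
    have h1 := h d l _ w hw hwc hSe
    set R := nrm (fun x => w (x + l) - w x) with hR
    have hR0 : 0 ≤ R := nrm_nonneg _
    have hQR : Q ≤ R + 2 * ε := by
      have k1 : L2 (fun x => w (x + l) - w x) := (l2_shift hwL l).sub hwL
      have k2 : L2 (fun x => f (x + l) - f x) := (l2_shift hf.l2 l).sub hf.l2
      have k3 := nrm_le_add_sub k2 k1
      have k4 := nrm_sub_le (l2_shift hwf l) hwf
      have k5 : nrm (fun x => (f (x + l) - f x) - (w (x + l) - w x)) =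
          nrm (fun x => (w (x + l) - f (x + l)) - (w x - f x)) := by
        rw [← nrm_neg]
        congr 1
        ext x
        ring
      rw [nrm_shift (fun x => w x - f x) l] at k4
      rw [k5] at k3
      linarith
    by_cases hc : Q ≤ 2 * ε
    · have : Q ^ 2 ≤ 4 * Q * ε := by nlinarith
      nlinarith [sq_nonneg R]
    · have : (Q - 2 * ε) ^ 2 ≤ R ^ 2 := by
        apply pow_le_pow_left₀ <;> linarith
      nlinarith [sq_nonneg ε]
  refine le_of_forall_pos_le_add fun δ hδ => ?_
  set C := 2 * ‖l‖ * (nrm f + 1 + nrm F) + 4 * Q with hC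
  have hC0 : 0 ≤ C := by positivity
  have h1 := key (min (1 / 2) (δ / (C + 1))) (by positivity) ((min_le_left _ _).trans_lt (by norm_num))
  have h2 : C * min (1 / 2) (δ / (C + 1)) ≤ δ := by
    calc C * min (1 / 2) (δ / (C + 1)) ≤ C * (δ / (C + 1)) := mul_le_mul_of_nonneg_left (min_le_right _ _) hC0
      _ = (C / (C + 1)) * δ := by ring
      _ ≤ 1 * δ := mul_le_mul_of_nonneg_right (by rw [div_le_one (by linarith)]; linarith) hδ.le
      _ = δ := one_mul δ
  linarith

end Pool.Agent.Helper67.SD
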